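import Pool.Agent.helper33.CVX.Spec

set_option autoImplicit false

namespace Pool.Agent.CVX

open MvPolynomial

/-- the generators -/
def TWB_set {R : Type} [CommRing R] [Algebra ℂ R] (A1 : Submodule ℂ R) {N : ℕ} (G : Fin N → R) (s : ℕ) :
    Set R :=
  {x | ∃ γ ∈ Finset.piAntidiag (Finset.univ : Finset (Fin N)) s, ∃ q ∈ A1, x = (∏ a, G a ^ γ a) * q}

lemma TWB_card (N s : ℕ) :
    (Finset.piAntidiag (Finset.univ : Finset (Fin N)) s).card ≤ (s + 1) ^ (N - 1) := by
  rcases N with _ | m
  · have h : (Finset.piAntidiag (Finset.univ : Finset (Fin 0)) s).card ≤ 1 := by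
      refine (Finset.card_le_one).2 ?_
      intro a _ b _
      exact Subsingleton.elim a b
    simpa using h
  · have h : (Finset.piAntidiag (Finset.univ : Finset (Fin (m + 1))) s).card ≤
        (Fintype.piFinset (fun _ : Fin m => Finset.range (s + 1))).card := by
      apply Finset.card_le_card_of_injOn (fun γ => fun i : Fin m => γ i.succ)
      · intro γ hγ
        rw [Finset.mem_coe, Finset.mem_piAntidiag] at hγ
        rw [Finset.mem_coe, Fintype.mem_piFinset]
        intro i
        rw [Finset.mem_range]
        have h1 : γ i.succ ≤ ∑ j, γ j := Finset.single_le_sum (fun _ _ => Nat.zero_le _) (Finset.mem_univ _)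
        rw [hγ.1] at h1
        show γ i.succ < s + 1
        omega
      · intro γ hγ γ' hγ' hh
        rw [Finset.mem_coe, Finset.mem_piAntidiag] at hγ hγ'
        have h1 := hγ.1
        have h2 := hγ'.1
        rw [Fin.sum_univ_succ] at h1 h2
        have h3 : ∀ i : Fin m, γ i.succ = γ' i.succ := fun i => congrFun hh i
        have h4 : ∑ i : Fin m, γ i.succ = ∑ i : Fin m, γ' i.succ := Finset.sum_congr rfl fun i _ => h3 i
        funext i
        refine Fin.cases ?_ h3 i
        omega
    refine h.trans (le_of_eq ?_)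
    rw [Fintype.card_piFinset_const, Finset.card_range]
    simp

theorem TWB : TWB_stmt := by
  intro R _ _ A hA N G T1 hG
  classical
  have hstep : ∀ s, A (T1 + s) ≤ Submodule.span ℂ (TWB_set (A T1) G s) := by
    intro s
    induction s with
    | zero =>
      intro F hF
      refine Submodule.subset_span ⟨0, ?_, F, hF, by simp⟩
      rw [Finset.mem_piAntidiag]
      simp
    | succ s ih =>
      intro F hF
      obtain ⟨p, hp, rfl⟩ := hG (T1 + s) (by omega) F hF
      refine Submodule.sum_mem _ fun a _ => ?_
      have h1 := ih (hp a)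
      generalize p a = y at h1
      induction h1 using Submodule.span_induction with
      | mem x hx =>
        obtain ⟨γ, hγ, q, hq, rfl⟩ := hx
        refine Submodule.subset_span ⟨γ + Pi.single a 1, ?_, q, hq, ?_⟩
        · rw [Finset.mem_piAntidiag] at hγ ⊢
          refine ⟨?_, fun i _ => Finset.mem_univ i⟩
          simp only [Pi.add_apply, Finset.sum_add_distrib]
          rw [hγ.1]
          simp
        · have h2 : ∏ i, G i ^ (γ + Pi.single a 1 : Fin N → ℕ) i = (∏ i, G i ^ γ i) * G a := by
            simp only [Pi.add_apply, pow_add, Finset.prod_mul_distrib]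
            congr 1
            rw [Finset.prod_eq_single a]
            · simp
            · intro b _ hb
              rw [Pi.single_eq_of_ne hb, pow_zero]
            · intro h
              exact absurd (Finset.mem_univ a) h
          rw [h2]
          ring
      | zero => rw [mul_zero]; exact Submodule.zero_mem _
      | add x y _ _ hx hy => rw [mul_add]; exact Submodule.add_mem _ hx hy
      | smul c x _ hx => rw [mul_smul_comm]; exact Submodule.smul_mem _ _ hx
  have hrank : ∀ s, Module.finrank ℂ (A (T1 + s)) ≤ (s + 1) ^ (N - 1) * Module.finrank ℂ (A T1) := by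
    intro s
    have := hA T1
    let Γ := {γ // γ ∈ Finset.piAntidiag (Finset.univ : Finset (Fin N)) s}
    let Φ : (Γ → A T1) →ₗ[ℂ] R :=
      ∑ γ : Γ, (LinearMap.mulLeft ℂ (∏ a, G a ^ γ.1 a)) ∘ₗ (A T1).subtype ∘ₗ (LinearMap.proj γ)
    have hle : A (T1 + s) ≤ LinearMap.range Φ := by
      refine (hstep s).trans (Submodule.span_le.2 ?_)
      rintro x ⟨γ, hγ, q, hq, rfl⟩
      refine ⟨Pi.single (⟨γ, hγ⟩ : Γ) ⟨q, hq⟩, ?_⟩
      simp only [Φ, LinearMap.sum_apply, LinearMap.comp_apply, LinearMap.proj_apply,
        Submodule.subtype_apply, LinearMap.mulLeft_apply]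
      rw [Finset.sum_eq_single (⟨γ, hγ⟩ : Γ)]
      · rw [Pi.single_eq_same]
      · intro b _ hb
        rw [Pi.single_eq_of_ne hb]
        simp
      · intro h
        exact absurd (Finset.mem_univ _) h
    calc Module.finrank ℂ (A (T1 + s)) ≤ Module.finrank ℂ (LinearMap.range Φ) :=
          Submodule.finrank_mono hle
      _ ≤ Module.finrank ℂ (Γ → A T1) := LinearMap.finrank_range_le Φ
      _ = Fintype.card Γ * Module.finrank ℂ (A T1) := by
          rw [Module.finrank_pi_fintype]
          simp
      _ ≤ (s + 1) ^ (N - 1) * Module.finrank ℂ (A T1) := by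
          refine Nat.mul_le_mul_right _ ?_
          rw [Fintype.card_coe]
          exact TWB_card N s
  refine ⟨∑ T ∈ Finset.range (T1 + 1), Module.finrank ℂ (A T), fun T => ?_⟩
  rcases le_total T T1 with h | h
  · have h1 : Module.finrank ℂ (A T) ≤ ∑ T ∈ Finset.range (T1 + 1), Module.finrank ℂ (A T) :=
      Finset.single_le_sum (f := fun T => Module.finrank ℂ (A T)) (fun _ _ => Nat.zero_le _)
        (Finset.mem_range.2 (by omega))
    exact h1.trans (Nat.le_mul_of_pos_right _ (by positivity))
  · obtain ⟨s, rfl⟩ := Nat.exists_eq_add_of_le h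
    have h1 : Module.finrank ℂ (A T1) ≤ ∑ T ∈ Finset.range (T1 + 1), Module.finrank ℂ (A T) :=
      Finset.single_le_sum (f := fun T => Module.finrank ℂ (A T)) (fun _ _ => Nat.zero_le _)
        (Finset.mem_range.2 (by omega))
    calc Module.finrank ℂ (A (T1 + s)) ≤ (s + 1) ^ (N - 1) * Module.finrank ℂ (A T1) := hrank s
      _ ≤ (T1 + s + 1) ^ (N - 1) * ∑ T ∈ Finset.range (T1 + 1), Module.finrank ℂ (A T) :=
          Nat.mul_le_mul (Nat.pow_le_pow_left (by omega) _) h1
      _ = _ := mul_comm _ _

end Pool.Agent.CVX
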